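import Pool.Agent.Q86.SA.Stm

/-!
# Project SA, lemma GROW
-/

set_option autoImplicit false

namespace Pool.Agent.Q153.SA

open Matrix Topology UpperHalfPlane
open scoped MatrixGroups
open Pool.Agent.Q86.SA

theorem kk_mul (g1 g2 : SL(2, ℝ)) : kk (g1 * g2) = kk g1 * kk g2 := by
  ext i j
  rw [Matrix.mul_apply, Fintype.sum_prod_type]
  simp only [kk, Matrix.SpecialLinearGroup.coe_mul, Matrix.mul_apply, Fin.sum_univ_two]
  push_cast
  ring

theorem kk_one : kk 1 = 1 := by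
  ext i j
  obtain ⟨i1, i2⟩ := i
  obtain ⟨j1, j2⟩ := j
  simp only [kk, Matrix.SpecialLinearGroup.coe_one, Matrix.one_apply, Prod.mk.injEq]
  by_cases h1 : i1 = j1 <;> by_cases h2 : i2 = j2 <;> simp [h1, h2]

theorem kk_neg (g : SL(2, ℝ)) : kk (-g) = kk g := by
  ext i j
  simp [kk, Matrix.SpecialLinearGroup.coe_neg]

theorem kk_inv_mul (g : SL(2, ℝ)) : kk g⁻¹ * kk g = 1 := by
  rw [← kk_mul, inv_mul_cancel, kk_one]

theorem kk_mul_inv (g : SL(2, ℝ)) : kk g * kk g⁻¹ = 1 := by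
  rw [← kk_mul, mul_inv_cancel, kk_one]

theorem bd_inv {R : ℝ} {g : SL(2, ℝ)} (h : Bd R g) : Bd R g⁻¹ := by
  intro i j
  rw [Matrix.SpecialLinearGroup.SL2_inv_expl]
  fin_cases i <;> fin_cases j <;> simp [h 0 0, h 0 1, h 1 0, h 1 1]

theorem bd_mul {R S : ℝ} (hR : 0 ≤ R) {g1 g2 : SL(2, ℝ)} (h1 : Bd R g1) (h2 : Bd S g2) :
    Bd (2 * R * S) (g1 * g2) := by
  intro i j
  rw [Matrix.SpecialLinearGroup.coe_mul, Matrix.mul_apply, Fin.sum_univ_two]
  have hS : ∀ a, |g1.1 i a * g2.1 a j| ≤ R * S := by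
    intro a
    rw [abs_mul]
    exact mul_le_mul (h1 i a) (h2 a j) (abs_nonneg _) hR
  calc |g1.1 i 0 * g2.1 0 j + g1.1 i 1 * g2.1 1 j|
      ≤ |g1.1 i 0 * g2.1 0 j| + |g1.1 i 1 * g2.1 1 j| := abs_add_le _ _
    _ ≤ R * S + R * S := add_le_add (hS 0) (hS 1)
    _ = 2 * R * S := by ring

theorem bd_neg {R : ℝ} {g : SL(2, ℝ)} (h : Bd R g) : Bd R (-g) := by
  intro i j
  rw [Matrix.SpecialLinearGroup.coe_neg]
  simpa using h i j

theorem bd_flow {L : ℝ} (h1 : 1 ≤ L) (h2 : L ≤ 2) : Bd 3 (flow L) := by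
  have he : Real.exp (L / 2) ≤ 3 := by
    have h3 : Real.exp (L / 2) ≤ Real.exp 1 := Real.exp_le_exp.mpr (by linarith)
    have := Real.exp_one_lt_d9
    linarith
  have he' : Real.exp (-(L / 2)) ≤ 3 := by
    have h3 : Real.exp (-(L / 2)) ≤ Real.exp 0 := Real.exp_le_exp.mpr (by linarith)
    rw [Real.exp_zero] at h3
    linarith
  intro i j
  fin_cases i <;> fin_cases j <;>
    simp [flow, abs_of_pos (Real.exp_pos _), he, he']

theorem norm_kk_le {R : ℝ} {g : SL(2, ℝ)} (hR : 0 ≤ R) (h : Bd R g) (i j : Fin 2 × Fin 2) :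
    ‖kk g i j‖ ≤ R ^ 2 := by
  simp only [kk]
  rw [Complex.norm_real, Real.norm_eq_abs, abs_mul, sq]
  exact mul_le_mul (h _ _) (h _ _) (abs_nonneg _) hR

theorem norm_mul3_le {a b c : ℝ} {P Q S : Matrix (Fin 2 × Fin 2) (Fin 2 × Fin 2) ℂ}
    (ha : 0 ≤ a) (hb : 0 ≤ b)
    (hP : ∀ i j, ‖P i j‖ ≤ a) (hQ : ∀ i j, ‖Q i j‖ ≤ b) (hS : ∀ i j, ‖S i j‖ ≤ c) (i j) :
    ‖(P * Q * S) i j‖ ≤ 16 * (a * b * c) := by
  have h1 : ∀ i j, ‖(P * Q) i j‖ ≤ 4 * (a * b) := by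
    intro i j
    rw [Matrix.mul_apply]
    calc ‖∑ l, P i l * Q l j‖ ≤ ∑ l : Fin 2 × Fin 2, ‖P i l * Q l j‖ := norm_sum_le _ _
      _ ≤ ∑ _l : Fin 2 × Fin 2, a * b := Finset.sum_le_sum fun l _ => by
          rw [norm_mul]
          exact mul_le_mul (hP _ _) (hQ _ _) (norm_nonneg _) ha
      _ = 4 * (a * b) := by
          rw [Finset.sum_const, Finset.card_univ, Fintype.card_prod]
          simp
          try ring
  rw [Matrix.mul_apply]
  calc ‖∑ l, (P * Q) i l * S l j‖ ≤ ∑ l : Fin 2 × Fin 2, ‖(P * Q) i l * S l j‖ := norm_sum_le _ _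
    _ ≤ ∑ _l : Fin 2 × Fin 2, (4 * (a * b)) * c := Finset.sum_le_sum fun l _ => by
        rw [norm_mul]
        exact mul_le_mul (h1 _ _) (hS _ _) (norm_nonneg _) (by positivity)
    _ = 16 * (a * b * c) := by
        rw [Finset.sum_const, Finset.card_univ, Fintype.card_prod]
        simp
        ring

/-- telescoping product -/
theorem prod_tele {G : Type*} [Group G]
    (X : G → Matrix (Fin 2 × Fin 2) (Fin 2 × Fin 2) ℂ)
    (hX1 : X 1 = 1) (hXm : ∀ c d, X (c * d) = X c * X d) (k : ℕ → SL(2, ℝ)) (b : ℕ → G) :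
    ∀ n : ℕ, (List.ofFn (fun j : Fin n => kk (k j)⁻¹ * X (b j) * kk (k (j + 1)))).prod =
      kk (k 0)⁻¹ * X (List.ofFn (fun j : Fin n => b j)).prod * kk (k n) := by
  intro n
  induction n with
  | zero => simp [hX1, kk_inv_mul]
  | succ n ih =>
    rw [List.ofFn_succ_last, List.prod_append, List.ofFn_succ_last, List.prod_append]
    simp only [Fin.val_castSucc, Fin.val_last, List.prod_singleton]
    rw [ih, hXm]
    calc kk (k 0)⁻¹ * X (List.ofFn (fun j : Fin n => b j)).prod * kk (k n) *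
          (kk (k n)⁻¹ * X (b n) * kk (k (n + 1)))
        = kk (k 0)⁻¹ * X (List.ofFn (fun j : Fin n => b j)).prod * (kk (k n) *
          kk (k n)⁻¹) * X (b n) * kk (k (n + 1)) := by simp only [Matrix.mul_assoc]
      _ = _ := by rw [kk_mul_inv, Matrix.mul_one]; simp only [Matrix.mul_assoc]

/-- eigenvalues under similarity with different index types -/
theorem spectrum_sim {A : Matrix (Fin 2 × Fin 2) (Fin 2 × Fin 2) ℂ} {B : Matrix (Fin 4) (Fin 4) ℂ}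
    {U : Matrix (Fin 2 × Fin 2) (Fin 4) ℂ} {V : Matrix (Fin 4) (Fin 2 × Fin 2) ℂ}
    (hUV : U * V = 1) (hVU : V * U = 1) (hA : A = U * B * V) {μ : ℂ} (hμ : μ ∈ spectrum ℂ A) :
    μ ∈ spectrum ℂ B := by
  rw [spectrum.mem_iff] at hμ ⊢
  intro hu
  apply hμ
  rw [isUnit_iff_exists] at hu ⊢
  obtain ⟨Y, hY1, hY2⟩ := hu
  have hAm : algebraMap ℂ (Matrix (Fin 2 × Fin 2) (Fin 2 × Fin 2) ℂ) μ - A =
      U * (algebraMap ℂ (Matrix (Fin 4) (Fin 4) ℂ) μ - B) * V := by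
    rw [Matrix.mul_sub, Matrix.sub_mul, ← hA, Algebra.algebraMap_eq_smul_one,
      Algebra.algebraMap_eq_smul_one, Matrix.mul_smul, Matrix.smul_mul, Matrix.mul_one, hUV]
  refine ⟨U * Y * V, ?_, ?_⟩
  · rw [hAm]
    calc U * (algebraMap ℂ (Matrix (Fin 4) (Fin 4) ℂ) μ - B) * V * (U * Y * V)
        = U * ((algebraMap ℂ (Matrix (Fin 4) (Fin 4) ℂ) μ - B) * (V * U) * Y) * V := by
          simp only [Matrix.mul_assoc]
      _ = 1 := by rw [hVU, Matrix.mul_one, hY1, Matrix.mul_one, hUV]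
  · rw [hAm]
    calc U * Y * V * (U * (algebraMap ℂ (Matrix (Fin 4) (Fin 4) ℂ) μ - B) * V)
        = U * (Y * (V * U) * (algebraMap ℂ (Matrix (Fin 4) (Fin 4) ℂ) μ - B)) * V := by
          simp only [Matrix.mul_assoc]
      _ = 1 := by rw [hVU, Matrix.mul_one, hY2, Matrix.mul_one, hUV]

theorem grow (h1 : S_FIN) (h2 : S_SLICE) (h3 : S_SR) (h4 : S_NEWT) (h5 : S_CONE) : S_GROW := by
  intro Γ hΓ
  obtain ⟨R0, hR0⟩ := h2 Γ hΓ
  set R : ℝ := max R0 1 with hRdef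
  have hR1 : 1 ≤ R := le_max_right _ _
  have hRpos : 0 < R := by linarith
  have hR0R : R0 ≤ R := le_max_left _ _
  have hfin : {c : Γ | Bd (2 * (2 * R * 3) * R) c.1}.Finite := by
    have := h1 Γ hΓ (2 * (2 * R * 3) * R)
    refine (this.preimage (f := fun c : Γ => c.1) Subtype.val_injective.injOn).subset ?_
    intro c hc
    exact ⟨c.2, hc⟩
  refine ⟨hfin.toFinset, 1 / (512 * R ^ 4), by positivity, ?_⟩
  intro M
  obtain ⟨T0, hT0⟩ := h4 M
  refine ⟨2 * Real.cosh (|T0| + 1), ?_⟩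
  intro ρ hρ γ hγ
  obtain ⟨h, h', hhh, hhh', hnear⟩ := hρ
  by_cases hsmall : |tr γ.1| < 2 * Real.cosh (1 / 2)
  · refine hsmall.le.trans ?_
    have : Real.cosh (1 / 2) ≤ Real.cosh (|T0| + 1) := by
      rw [Real.cosh_le_cosh]
      have h0 := abs_nonneg T0
      rw [abs_of_pos (by norm_num : (0 : ℝ) < 1 / 2), abs_of_nonneg (by linarith)]
      linarith
    linarith
  push Not at hsmall
  obtain ⟨n, L, k, b, g, hn1, hL1, hL2, htr, hk, hb, hkn, hprod⟩ := hR0 γ hsmall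
  have hkR : ∀ j, Bd R (k j) := fun j i i' => (hk j i i').trans hR0R
  -- the matrices
  set X : Γ → Matrix (Fin 2 × Fin 2) (Fin 2 × Fin 2) ℂ := fun c => h * (ρ c).1 * h' with hX
  have hX1 : X 1 = 1 := by
    simp [hX, hhh]
  have hXm : ∀ c d, X (c * d) = X c * X d := by
    intro c d
    simp only [hX, map_mul, Matrix.SpecialLinearGroup.coe_mul]
    have h9 : (ρ c).1 * (h' * h) * (ρ d).1 = (ρ c).1 * (ρ d).1 := by
      rw [hhh', Matrix.mul_one]
    rw [← h9]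
    simp only [Matrix.mul_assoc]
  -- closeness
  have hclose : ∀ j, j < n → ∀ i i',
      ‖(kk (k j)⁻¹ * X (b j) * kk (k (j + 1)) - kk (flow L)) i i'‖ ≤ 1 / 32 := by
    intro j hj i i'
    have hbk : kk (b j).1 * kk (k (j + 1)) = kk (k j) * kk (flow L) := by
      rw [← kk_mul, ← kk_mul]
      rcases hb j hj with h0 | h0
      · rw [h0]
      · rw [h0, kk_neg]
    have hbB : b j ∈ hfin.toFinset := by
      rw [Set.Finite.mem_toFinset]
      show Bd _ (b j).1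
      rcases hb j hj with h0 | h0
      · have h6 : (b j).1 = k j * flow L * (k (j + 1))⁻¹ := by
          rw [← h0]; group
        rw [h6]
        exact bd_mul (by positivity) (bd_mul hRpos.le (hkR j) (bd_flow hL1 hL2))
          (bd_inv (hkR (j + 1)))
      · have h6 : (b j).1 = -(k j * flow L) * (k (j + 1))⁻¹ := by
          rw [← h0]; group
        rw [h6]
        exact bd_mul (by positivity) (bd_neg (bd_mul hRpos.le (hkR j) (bd_flow hL1 hL2)))
          (bd_inv (hkR (j + 1)))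
    have hdiff : kk (k j)⁻¹ * X (b j) * kk (k (j + 1)) - kk (flow L) =
        kk (k j)⁻¹ * (X (b j) - kk (b j).1) * kk (k (j + 1)) := by
      rw [Matrix.mul_sub, Matrix.sub_mul, Matrix.mul_assoc (kk (k j)⁻¹) (kk (b j).1), hbk,
        ← Matrix.mul_assoc (kk (k j)⁻¹) (kk (k j)), kk_inv_mul, Matrix.one_mul]
    rw [hdiff]
    refine (norm_mul3_le (a := R ^ 2) (b := 1 / (512 * R ^ 4)) (c := R ^ 2) (by positivity)
      (by positivity) (fun _ _ => norm_kk_le hRpos.le (bd_inv (hkR j)) _ _)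
      (fun _ _ => hnear _ hbB _ _) (fun _ _ => norm_kk_le hRpos.le (hkR (j + 1)) _ _) i i').trans ?_
    have : 16 * (R ^ 2 * (1 / (512 * R ^ 4)) * R ^ 2) = 1 / 32 := by
      field_simp
      norm_num
    rw [this]
  -- the product
  set A : Matrix (Fin 2 × Fin 2) (Fin 2 × Fin 2) ℂ :=
    (List.ofFn (fun j : Fin n => kk (k j)⁻¹ * X (b j) * kk (k (j + 1)))).prod with hA
  have hAeq : A = kk (k 0)⁻¹ * X (g⁻¹ * γ * g) * kk (k 0) := by
    rw [hA, prod_tele X hX1 hXm k b n, hkn, hprod]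
  have hcone : ∀ v : Fin 2 × Fin 2 → ℂ, (∀ i, ‖v i‖ ≤ ‖v (0, 0)‖) →
      (∀ i, ‖(A *ᵥ v) i‖ ≤ ‖(A *ᵥ v) (0, 0)‖) ∧ 2 ^ n * ‖v (0, 0)‖ ≤ ‖(A *ᵥ v) (0, 0)‖ :=
    fun v hv => h5 n L (fun j => kk (k j)⁻¹ * X (b j) * kk (k (j + 1))) hL1 hclose v hv
  have hgrow : ∀ m : ℕ, (∀ i, ‖((A ^ m) *ᵥ (Pi.single (0, 0) 1)) i‖ ≤
      ‖((A ^ m) *ᵥ (Pi.single (0, 0) 1)) (0, 0)‖) ∧
      ((2 : ℝ) ^ n) ^ m ≤ ‖((A ^ m) *ᵥ (Pi.single (0, 0) 1)) (0, 0)‖ := by
    intro m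
    induction m with
    | zero =>
      constructor
      · intro i
        by_cases hi : i = (0, 0)
        · subst hi; exact le_rfl
        · simp [hi]
      · simp
    | succ m ih =>
      have h6 := hcone _ ih.1
      rw [pow_succ', ← Matrix.mulVec_mulVec]
      refine ⟨h6.1, ?_⟩
      refine le_trans ?_ h6.2
      rw [pow_succ']
      exact mul_le_mul_of_nonneg_left ih.2 (by positivity)
  obtain ⟨μ, hμ, hμs⟩ := h3 A ((2 : ℝ) ^ n) (Pi.single (0, 0) 1) (0, 0) (by positivity)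
    (fun m => (hgrow m).2)
  have hμ' : μ ∈ spectrum ℂ (ρ γ).1 := by
    have hg1 : (ρ g⁻¹).1 * (ρ g).1 = 1 := by
      rw [← Matrix.SpecialLinearGroup.coe_mul, ← map_mul, inv_mul_cancel, map_one,
        Matrix.SpecialLinearGroup.coe_one]
    have hg2 : (ρ g).1 * (ρ g⁻¹).1 = 1 := by
      rw [← Matrix.SpecialLinearGroup.coe_mul, ← map_mul, mul_inv_cancel, map_one,
        Matrix.SpecialLinearGroup.coe_one]
    refine spectrum_sim (A := A) (B := (ρ γ).1) (U := kk (k 0)⁻¹ * h * (ρ g⁻¹).1)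
      (V := (ρ g).1 * h' * kk (k 0)) ?_ ?_ ?_ hμ
    · calc kk (k 0)⁻¹ * h * (ρ g⁻¹).1 * ((ρ g).1 * h' * kk (k 0))
          = kk (k 0)⁻¹ * (h * ((ρ g⁻¹).1 * (ρ g).1) * h') * kk (k 0) := by
            simp only [Matrix.mul_assoc]
        _ = 1 := by rw [hg1, Matrix.mul_one, hhh, Matrix.mul_one, kk_inv_mul]
    · calc (ρ g).1 * h' * kk (k 0) * (kk (k 0)⁻¹ * h * (ρ g⁻¹).1)
          = (ρ g).1 * (h' * (kk (k 0) * kk (k 0)⁻¹) * h) * (ρ g⁻¹).1 := by
            simp only [Matrix.mul_assoc]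
        _ = 1 := by rw [kk_mul_inv, Matrix.mul_one, hhh', Matrix.mul_one, hg2]
    · rw [hAeq]
      simp only [hX, map_mul, Matrix.SpecialLinearGroup.coe_mul, Matrix.mul_assoc]
  have hle : ‖μ‖ ≤ T0 := by
    refine hT0 (ρ γ).1 ?_ μ hμ'
    intro k' hk'
    have := hγ k' hk'
    rwa [character, map_pow, Matrix.SpecialLinearGroup.coe_pow] at this
  have hnT : (n : ℝ) ≤ T0 := by
    have h7 : (n : ℝ) ≤ (2 : ℝ) ^ n := by
      exact_mod_cast (Nat.lt_two_pow_self).le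
    exact h7.trans (hμs.trans hle)
  rw [htr]
  have : Real.cosh (n * L / 2) ≤ Real.cosh (|T0| + 1) := by
    rw [Real.cosh_le_cosh]
    have hn0 : (0 : ℝ) ≤ n := Nat.cast_nonneg n
    have h0 := abs_nonneg T0
    have h8 := le_abs_self T0
    rw [abs_of_nonneg (by positivity), abs_of_nonneg (by linarith)]
    nlinarith
  linarith

end Pool.Agent.Q153.SA
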